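import Mathlib
import Pool.Agent.K6.H99.EH.FFMain

/-!
# The Tate conjecture for the function fields of the varieties dominated by a product of elliptic curves
and of an arbitrary curve

Let `q` be a prime power, `n` a multiple of `24` and `k` the field with `q ^ n` elements. Let `𝒫` be
the class of the products `A × Y`, where `A` is any abelian variety isogenous to a product of
elliptic curves which come from the field with `q` elements, and `Y` is **any smooth projective
curve** (over finite extensions of `k`, regarded as schemes over `k`). Let `𝒢` (`Generated`) be the
smallest class of schemes of finite type over `k` which contains `𝒫`, is closed under motivic direct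
summands of sums of twists, and contains all of a closed subscheme `Z` of `X`, `X` and `X ∖ Z` if it
contains two of them, and `𝒮` (`Spread`) the smallest class which contains `𝒢`, all open
subschemes and all images under proper morphisms of its members, the unions of a closed and an open
member, and the schemes whose motives are direct summands of sums of twists of motives of members.
So `𝒮` contains all varieties `X` of any dimension for which there is a dominant rational map
`A × Y → X` with `A × Y` in `𝒫`.

**The cohomology of the generic point.** Let `X` be a variety of dimension `e` in `𝒮`, and let `P` be
the system of its nonempty open subschemes `U` with the restriction maps (`Opens E X`). A class in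
`H^i(F_0 X, ℚ_ℓ(j)) = lim H^i(U, ℚ_ℓ(j)) = lim H_m(U, ℚ_ℓ(j'))`, `m = 2 e - i`, `j' = e - j`, is
given by a class `x` on some `U`; two classes are equal in the limit if they are equal on a smaller
open subscheme. `TateFunctionField P` says: **for all `i ≥ 2 j` (that is, `m ≤ 2 j'`), every Frobenius
invariant class in `H^i(F_0 X, ℚ_ℓ(j))` is in the image of the group
`lim CH^j(U, 2 j - i) ⊗ Ω = CH^j(Spec k(X), 2 j - i) ⊗ Ω`**, that is, Q1 is true in these degrees; and
it is zero, as predicted, if this group vanishes (`MotivicVanishes`; for `i = 2 j` and `j > 0` a
cycle of codimension `j` vanishes on the complement of its support).

There is no exceptional set here: all products of elliptic curves, all curves `Y` and all varieties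
dominated by such products are covered. The proof combines the theorem on the relations between the
Frobenius eigenvalues of elliptic curves and of an arbitrary curve (`K6/H99/EC`, the mean value over
the Galois group of the square of a sum of differences of valuations), the resulting theorem on the
motivic homology of these varieties (MP_81632f_ag EllipticTimesCurve), and the passage to the limit
over the open subschemes of helper79 (`K6/H79/FF`).
-/

set_option autoImplicit false

namespace Pool.Agent.Results.MP_677d84_ag.EllipticTimesCurve

open Polynomial Pool.Agent.W495.FM Pool.Agent.K6.H99.EC Pool.Agent.K6.H99.EH
  Pool.Agent.K6.H99.EH.FF

/-- `IsProduct E q n (ellipticPoly q) X`: the homology groups of `X` are those of a product `A × Y`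
over an extension of the field `k` with `q ^ n` elements, regarded as a scheme over `k`, where `A` is
an abelian variety isogenous to a product of elliptic curves coming from the field with `q`
elements, and `Y` is a curve. -/
theorem result (q : ℕ) (hq : IsPrimePow q) (n : ℕ) (hn : 24 ∣ n) (Ω : Type) [Field Ω]
    [IsAlgClosed Ω] [CharZero Ω] (V : Type) (E : Homology Ω V) (hE : IsHomology E)
    (hW : HasWeights E) (X : V)
    (hX : Spread E (Generated E (IsProduct E q n (ellipticPoly q))) X) (P : Opens E X) :
    TateFunctionField P :=
  tate_elliptic hq hn hE hW hX P

end Pool.Agent.Results.MP_677d84_ag.EllipticTimesCurve
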