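import Mathlib
import Pool.Agent.K6.H79.FF.Main

/-!
# The Tate conjecture for the function fields of the varieties generated by abelian varieties with one
half of all slope types of every CM field of degree `2 r ^ k`

**The varieties.** An abelian variety over the field with `p ^ a` elements is modelled by `RedAV`
(starting files): by Honda and Tate it is, over an algebraic closure of the field with `p` elements,
isogenous to the reduction of an abelian variety of CM type. We fix an isomorphism `ν` of the
algebraic closure of `ℚ_p` with `ℂ`; it defines a `p`-adic valuation of `ℂ`.

Let `K i` be finitely many CM fields that are pairwise independent: for `i ≠ k` and all complex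
embeddings `φ` of `K i` and `ψ` of `K k` some automorphism of `ℂ` is the identity on `φ (K i)` and the
complex conjugation on `ψ (K k)` (this is no condition for one field). Let `M i` be functions with
integral values on the complex embeddings of `K i`, invariant under complex conjugation (the
weights). A CM type `Φ i` of `K i`, the weights `M i` and a real number `κ ≠ 0` prescribe the slopes
`(a + κ M) / 2` (at the embeddings in `Φ i`) and `(a - κ M) / 2` (outside of `Φ i`) of a Weil number
in `K i`; the case `M = 1`, `κ = a` is the ordinary case. For a family of types `Φ i` let `𝒞` be the
class of the abelian varieties each of whose factors is supersingular or has a Frobenius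
endomorphism some power of which is, for some `i`, a Weil number in `K i` with the slopes prescribed
by `Φ i`, `M i` and some `κ i ≠ 0`.

`Homology Ω V` are data of motivic homology `M X n j = H_n^M(X, ℚ(j)) = CH_j(X, n - 2 j) ⊗ ℚ` and of
`ℓ`-adic homology `E X n j = H_n(X, ℚ_ℓ(j))` (Borel-Moore homology over the algebraic closure,
coefficients extended to `Ω`) of schemes `X` of finite type over a finite field (the elements of
`V`), with the Frobenius and the regulator. Let `𝒢` (`Generated`) be the smallest class of such
schemes that contains those with the homology groups of abelian varieties in `𝒞`, that is closed
under direct summands of finite sums of twists of motives, and that contains all of a closed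
subscheme `Z` of `X`, `X` and `X ∖ Z` if it contains two of them; let `𝒮` (`Spread`) be the smallest
class that contains `𝒢`, all open subschemes (with an arbitrary complement) and all images under
proper morphisms of its members, the schemes that are the union of a closed and an open member, and
the schemes whose motives are direct summands of sums of twists of motives of members. So `𝒮`
contains all varieties dominated by products of varieties in `𝒞`, of curves with Jacobians in `𝒞`, and
so on.

**The cohomology of the generic point.** Let `X` be a variety of dimension `e` in `𝒮`, and let `P` be
the system of its nonempty open subschemes `U` with the restriction maps (`Opens T X`). A class in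
`H^i(F_0 X, ℚ_ℓ(j)) = lim H^i(U, ℚ_ℓ(j)) = lim H_n(U, ℚ_ℓ(j'))`, `n = 2 e - i`, `j' = e - j`, is
given by a class `x` on some `U`; two classes are equal in the limit if they are equal on a smaller
open subscheme. `TateFunctionField P` says: **for all `i ≥ 2 j` (that is, `n ≤ 2 j'`), every Frobenius
invariant class in `H^i(F_0 X, ℚ_ℓ(j))` is in the image of the group
`lim CH^j(U, 2 j - i) ⊗ Ω = CH^j(Spec k(X), 2 j - i) ⊗ Ω`**, that is, Q1 is true in these degrees; and
it is zero, as predicted, if this group vanishes (`MotivicVanishes`; for `i = 2 j` and `j > 0` a
cycle of codimension `j` vanishes on the complement of its support).

**The theorem.** Let `E` be **any CM field of degree `2 g = 2 r ^ k`**, `r` a prime number, of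
degree at least `16` if `r = 2`; nothing is assumed about the Galois group of the normal closure of
`E`, and nothing about the subfields of `E`.

* (`HalfOfAll`) For all weights `M` (odd if `r = 2`; if `r` is odd then `r` may divide some, but not
  all of them) `TateFunctionField` is true for all `X` in `𝒮` for **at least one half of all `2 ^ g`
  types** of `E`.
* (`MostWithWeightsOne`) For the weights `M = 1` it is true for at least `(1 - 1 / r) 2 ^ g` of the
  types.
* (`OneOfTwo`) There is a set `B` of embeddings of `E`, stable under complex conjugation, such that
  for **every** type `Φ` it is true for `Φ` or for the symmetric difference of `Φ` and `B`.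
* (`SixteenPercent`) There is a number `g₀` such that for every CM field that is **abelian over
  `ℚ`**, of any degree `2 g ≥ 2 g₀`, and all odd weights it is true for at least 16 percent of all
  `2 ^ g` types.

All this is proved more generally for finitely many pairwise independent fields `K i`; the
proportions are then multiplied. The dimension of the varieties and the codimension `j` are
arbitrary.

The proof combines two parts of the starting files, the generation of the Tate classes of the
abelian varieties in `𝒞` by divisor classes and its spreading to the class `𝒮` (`TH170/GS`,
`W495/FM`), and the count of the types without relations (`Q29/EP`), and passes to the limit over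
the open subschemes.
-/

set_option autoImplicit false

namespace Pool.Agent.Results.MP_677d84_ag.FunctionFieldsHalfOfAll

open Pool.Agent.Q29.EP Pool.Agent.K6.H79.FF

/-- **The Tate conjecture for the function fields of all varieties generated by abelian varieties with
one half of all slope types of every CM field of degree `2 r ^ k`, in the degrees `i ≥ 2 j`.** -/
theorem result : HalfOfAll Prp ∧ MostWithWeightsOne Prp ∧ OneOfTwo Prp ∧ SixteenPercent Prp :=
  ⟨halfOfAll withoutRelations, mostWithWeightsOne withoutRelations, oneOfTwo withoutRelations,
    sixteenPercent withoutRelations⟩

end Pool.Agent.Results.MP_677d84_ag.FunctionFieldsHalfOfAll
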