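import Pool.Agent.K6.H28.FF.Final

/-!
# The Tate conjecture for function fields in small degrees and small twists

Let `F` be a finite field. For a variety `X` of dimension `e` over `F` with function field `K` let
`Q1_X(i, j)` be the statement Q1 for `X` in the degree `(i, j)`: each Frobenius invariant class in
`H^i(F_0 X, ℚ_ℓ(j))` is in the span of the image of `CH^j(Spec K, 2 j - i)`. (The groups
`CH^j(Spec F̄(X), 2 j - i)` have the same invariant images, by averaging over conjugates.)

**Descent.** If there is a dominant rational map from `Y` to `Z` (`F(Z)` is a subfield of `F(Y)`) then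
`Q1_Y(i, j)` implies `Q1_Z(i, j)`.

**Smooth projective varieties `Y`** of dimension `d`:

* `Q1_Y(2, 1)` ⟺ the conjecture of Tate on divisors for `Y` (in this text always with semisimplicity);
* `Q1_Y(2, 2)` ⟺ `CH^2(Y, 1) ⊗ ℚ = H^1(Y, K_2) ⊗ ℚ = 0` (predicted by the conjecture of Parshin);
* if the closed subvarieties of codimension one in `Y` satisfy the conjecture of Tate on divisors then
  `Q1_Y(3, 2)` ⟺ the cycle class map `CH^2(Y) ⊗ Ω → H^4(Y, ℚ_ℓ(2)) ⊗ Ω` is injective, and
  `Q1_Y(4, 2)` ⟺ the conjecture of Tate in codimension two for `Y` (with semisimplicity).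

**Varieties `X`** of dimension `d + 1 ≥ 2` that satisfy the conjecture of Tate and Beilinson (`TB`: in all
degrees the motivic homology `⊗ Ω` is the Frobenius invariant part of the `ℓ`-adic homology, and the
eigenvalue one is semisimple), for instance `X = ℙ^(d+1)` and all varieties in the class generated by the
spectrum of `F` (`Generated T (IsPoint T)`: linear and cellular varieties, toric varieties, ...). The
conjecture `TB` is also proved in the starting files `W495/FM` (`tb_small`) for the class generated by
the abelian varieties of dimension at most four and products of elliptic curves: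

* `Q1_X(i, j)` holds for `i < j`, for `i ≥ 2 j`, and for `(i, j) = (1, 1)` and `(2, 2)`. (So the only
  degrees with `i ≤ 3` or `j ≤ 3` in which it may fail are `(3, 2)`, `(3, 3)`, `(4, 3)` and `(5, 3)`. By the
  descent this is true for all varieties of any dimension dominated by `X`.)
* `Q1_X(3, 2)` ⟺ all closed subschemes of codimension one of `X` satisfy the conjecture of Tate on
  divisors, with semisimplicity, ⟺ they satisfy it without semisimplicity.
* Let `X` be moreover smooth and projective, and let `𝒴` be the family of all smooth projective schemes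
  of dimension `d` over `F` (`IsModels`). Then
  - `Q1_X(3, 2)` ⟺ all `Y ∈ 𝒴` satisfy the conjecture of Tate on divisors;
  - `Q1_X(3, 3)` ⟺ `CH^2(Y, 1) ⊗ ℚ = 0` for all `Y ∈ 𝒴`;
  - if all `Y ∈ 𝒴` satisfy the conjecture of Tate on divisors then `Q1_X(4, 3)` ⟺ the cycle class maps on
    `CH^2(Y) ⊗ Ω` are injective for all `Y ∈ 𝒴`, and `Q1_X(5, 3)` ⟺ all `Y ∈ 𝒴` satisfy the conjecture of
    Tate in codimension two;
  - if `X` is a threefold: **Q1 holds for `X` in all degrees** ⟺ all smooth projective surfaces `Y` over `F`
    satisfy the conjecture of Tate and `CH^2(Y, 1) ⊗ ℚ = 0`.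

  So Q1 for the single field `F(x, y, z)` is equivalent to Q1 for all surfaces over `F`, and to Q1 for any
  other smooth projective threefold that satisfies `TB`. By the descent, **for each variety `X'` of
  dimension at least `d + 1` (it dominates `ℙ^(d+1)`), without any other condition, `Q1_X'(3, 2)` implies
  the conjecture of Tate on divisors for all smooth projective varieties `Y` of dimension `d`, and
  `Q1_X'(3, 3)` implies `CH^2(Y, 1) ⊗ ℚ = 0` for all these `Y`.**
* If `X` is smooth and projective and if all closed subschemes of codimension at least two of `X` satisfy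
  `TB` then `Q1_X(i, j)` ⟺ `Q1_Z(i - 1, j - 1)` for all closed subvarieties `Z` of codimension one, for
  all `i` and all `j ≥ 1`.

The proof. One shows first that `Q1_X(i, j)` ⟺ `Q1_Z(i - 1, j - 1)` for all closed subvarieties `Z` of
codimension one, in the degrees `(3, 2)`, `(3, 3)`, `(4, 3)` and `(5, 3)`. Here `⟸` is a four lemma for
the localisation sequences. For `⟹` let `w` be an invariant class at the generic point of `Z`. Its residue
on a closed subset `C` of codimension two in `X` is motivic (units or divisors on `C`); by `TB` for `X`
and the vanishing of `CH^j(K, 2 j - i - 1)`, it is on a larger closed subset `Z'` of codimension one the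
residue of a motivic class `v`; the difference `w - v` extends to a class `w'` on `Z'`, and after a
modification by a motivic class `w'` is zero on `X`. So `w'` is the residue of a class on `X ∖ Z'`, which by
`Q1_X(i, j)` becomes motivic on `X ∖ Z''`. Hence `w` is motivic on `Z''`, and one projects to the component
`Z`. The semisimplicity comes for free. The smooth projective models come in by the descent.
-/

set_option autoImplicit false

namespace Pool.Agent.Results.MP_677d84_ag.RationalFunctionFields

open Pool.Agent.W495.FM Pool.Agent.K6.H28.FF

/-- **Q1 for function fields in small degrees and small twists.** -/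
theorem result (Ω : Type) [Field Ω] [CharZero Ω] (V : Type) (T : Homology Ω V) (hT : IsHomology T)
    (hW : HasWeights T) :
    Descent T ∧
    -- smooth projective `Y` of dimension `d`
    (∀ (S : Strata T) (Y : S.C) (d : ℤ), IsStrata S → 0 ≤ d → S.dim Y ≤ d → Pure T (S.cl Y) →
      SmallDegrees S Y d) ∧
    -- `X` of dimension `d + 1` that satisfies the conjecture of Tate and Beilinson
    ∀ (S : Strata T) (X : S.C) (d : ℤ), IsStrata S → 1 ≤ d → S.dim X ≤ d + 1 →
      TB T (S.cl X) ∨ Generated T (IsPoint T) (S.cl X) →
      KnownDegrees S X d ∧ DegreeThreeTwo S X d ∧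
      -- smooth projective `X`, and the smooth projective schemes `Y t` of dimension `d`
      (Pure T (S.cl X) → ResiduePrinciple S X d ∧
        ∀ (I : Type) (S' : I → Strata T) (Y : ∀ t, (S' t).C), IsModels S X d S' Y →
          Dictionary S X d S' Y) := by
  refine ⟨fun S S' Y Z d' d r i j hS hS' hr hD h => q1_dominates hT hS hS' hr hD h,
    fun S Y d hS hd hY hP => ?_, fun S X d hS hd hX hXX => ?_⟩
  · obtain ⟨h1, h2, h3⟩ := pure_all hT hW hS hd hY hP
    refine ⟨h1, h2, fun hC => h3 fun C hCY hCd => ?_⟩
    have h1 := hC C hCY (Int.le_sub_one_of_lt hCd)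
    have e1 : 2 * (d - 1) - 2 = 2 * d - 4 := by ring
    have e2 : d - 1 - 1 = d - 2 := by ring
    unfold TateDivisors at h1
    rwa [e1, e2, ontoAt_iff hT] at h1
  · have hTB : TB T (S.cl X) := hXX.elim id fun h => tb_generated hT (fun _ h => tb_point hT h) h
    have h32 : Q1 S X (d + 1) 3 2 ↔
        ∀ Z : S.C, Z ≤ X → S.dim Z ≤ d → TateDivisors T (S.cl Z) d := by
      rw [tb_three_two hT hW hS (by omega) hX hTB]
      exact forall_congr' fun Z => forall_congr' fun _ => forall_congr' fun hZ =>
        q1_two_one hT hW hS (by omega) hZ
    refine ⟨fun i j hij => tb_known hT hW hS hX hTB hij,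
      ⟨h32, ⟨fun h Z hZX hZ => (h32.1 h Z hZX hZ).1, tb_three_two_weak hT hW hS hTB⟩⟩,
      fun hP => ⟨fun hC i j hj => residues hT hW hS (by omega) hX hTB hP hC hj, fun I S' Y hM =>
        ⟨models_three_two hT hW hS hd hX hTB hM, models_three_three hT hW hS hd hX hTB hP hM,
          models_twist_three hT hW hS hd hX hTB hM, ?_⟩⟩⟩
    · rintro rfl
      rw [all_iff hT hS hX, forall_and, ← models_three_two hT hW hS hd hX hTB hM,
        ← models_three_three hT hW hS hd hX hTB hP hM]
      have h3 := tb_three hT hW hS (by omega) hX hTB hP
      rw [← tb_three_two hT hW hS (by omega) hX hTB,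
        ← tb_three_three hT hW hS (by omega) hX hTB hP] at h3
      exact h3

end Pool.Agent.Results.MP_677d84_ag.RationalFunctionFields
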