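import Pool.Agent.K6.H28.RV.Good

/-!
# The Tate conjecture for function fields and the vanishing of invariant classes on the first rays

Let `F` be a finite field with `q` elements. Let `Q1_X(i, j)` be the statement Q1 for the variety `X` over
`F` in the degree `(i, j)`: each Frobenius invariant class in `H^i(F_0 X, ℚ_ℓ(j))` is in the span of the
image of `CH^j(Spec F(X), 2 j - i)`. (The group `CH^j(Spec F̄(X), 2 j - i)` has the same invariant images,
by averaging over conjugates.) As `CH^j(K, 2 j - i) = 0` for fields `K` and `i > j`, in the degrees
`(i, j) = (2 j - a, j)` with `j > a` it says that there are no Frobenius invariant classes,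
`H^(2 j - a)(F_0 X, ℚ_ℓ(j))^G = 0`. Call the union of these degrees, for all `j > a`, the ray `a`:

* `R_a(X)`: `H^(2 j - a)(F_0 X, ℚ_ℓ(j))^G = 0` for all `j > a`.

Let `T(N)` be the conjecture of Tate in all codimensions, with the semisimplicity of the eigenvalue one,
for all smooth projective schemes over `F` of dimension at most `N`, and `B(N)` the conjecture of
Beilinson for them (`CH^c(Y) ⊗ ℚ_ℓ → H^(2c)(Y, ℚ_ℓ(c))` is injective for all `c`). We prove for all `N`,
and for all primes `ℓ`:

* `R_0(X)` for all varieties `X` of dimension at most `N` ⟺ `T(N)`.
* `R_1(X)` for all varieties `X` of dimension at most `N` ⟺ `T(N - 1)` and `B(N)`.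
* For ONE variety `X` of dimension `N + 1` the vanishing `R_1(X)` implies `T(N)`, and `R_1(X)` and `R_2(X)`
  imply `T(N)` and `B(N)`. For `X = ℙ^(N+1)`, or any other smooth projective `X` that satisfies the
  conjecture of Tate and Beilinson (`TB`), these are equivalences: **`R_1(ℙ^(N+1)) ⟺ T(N)`, and
  `R_1(ℙ^(N+1)) ∧ R_2(ℙ^(N+1)) ⟺ T(N) ∧ B(N)`.**
* **If `R_1(X)` and `R_2(X)` hold for one variety `X` of dimension at least `2 c + 1` then Q1 holds in all
  degrees `(i, j)` for all varieties of dimension at most `c`, and for all smooth projective varieties of
  dimension `c + 1` that satisfy `TB` (for instance `ℙ^(c+1)`).** If `R_1(X)` holds for all varieties of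
  dimension at most `N` then Q1 holds in all degrees for all varieties of dimension at most `N / 2`
  (`N ≥ 1`), and for those of dimension at most `N / 2 + 1` (`N ≥ 2`) that satisfy `TB`.
* **Q1 for all varieties in all degrees ⟺ `R_1(X)` for all varieties `X` ⟺ `R_1(X)` and `R_2(X)` for
  varieties `X` of arbitrarily large dimension** (for instance for the rational function fields).
* **Independence of `ℓ`.** For each `N` the statement `R_1(ℙ^N)` does not depend on `ℓ`, and neither does
  the statement `R_1(ℙ^N) ∧ R_2(ℙ^N)`. More generally if one has `R_1(X)` (and `R_2(X)`) for one prime `ℓ`
  and one variety `X` then one has it for all primes `ℓ'` and all smooth projective varieties of dimension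
  at most `dim X` that satisfy `TB`. If Q1 is true for all varieties in all degrees (or only on the first
  ray) for one prime `ℓ` then it is so for all primes.

The proof. (1) Q1 descends along dominant rational maps. A variety of dimension `N + 1` dominates the
projective space of this dimension, and this dominates (by a hypersurface `Z`) each smooth projective `Y` of
dimension `N`. (2) From `ℙ = ℙ^(N+1)` to `Z`: for an invariant class `w` at the generic point of `Z` in the
degree `(2 r, r)` the residues of `w` vanish by weights; so `w` extends to `Z`, and it is modified by cycles
to vanish in `ℙ`; hence it is the residue of a class on the complement, in the degree `(2 r + 1, r + 1)`;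
this has no generalised eigenvector at the generic point by `R_1(ℙ)`. So `w` is a cycle class, for all `Y`,
and `T(N)` follows by induction on the dimension. Similarly for the degree `(2 r - 1, r)` and `R_2(ℙ)`; here
the residues are cycle classes by `T(N)`. This implies that homologically trivial cycles on `Y` are
rationally trivial. (3) Conversely `T(N)`, `B(N)` imply the vanishing by the localisation sequence and the
purity of `Y`. (4) The conjecture of Parshin follows from `T(N)` and `B(2 N)` by the argument of Geisser: let
`p(F) = 0` be an equation of the Frobenius correspondence on `Y × Y` and `p = (X - q^c)^m g`; then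
`g(F) / g(q^c)` is in the cohomology the projector onto the cycle classes, so it is equal to a combination of
products of cycles `a × b` in `CH(Y × Y)` by `B(2 N)`. The former acts as one on `CH^c(Y, b) ⊗ ℚ`, and the
latter acts as zero if `b > 0`. (This is proved here; only the standard properties of the ring of
correspondences are hypotheses.) (5) So all smooth projective varieties of dimension at most `N` satisfy
`TB`. One extends this to their closed subvarieties by induction, with the descent for the generic points
and the five lemma, and obtains Q1 in all degrees. (6) For the independence of `ℓ` one uses the duality: if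
the conjecture of Tate is true for `ℓ` then the rank of the intersection matrix of the cycles of dimension
`k` and `d - k` is the multiplicity of the eigenvalue one, and this does not depend on `ℓ`.
-/

set_option autoImplicit false

namespace Pool.Agent.Results.MP_677d84_ag.VanishingOnRays

open Pool.Agent.W495.FM Pool.Agent.K6.H28.RV

/-- **Q1 and the vanishing of invariant classes on the first rays.** -/
theorem result (Ω : Type) [Field Ω] [CharZero Ω] (V : Type) (T : Homology Ω V) (hT : IsHomology T)
    (hW : HasWeights T) (U : Family T) (hU : IsUniverse U) (q : ℚ) (hC : HasCorrespondences U q) :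
    RayTheorem U ∧ FromRays U ∧ AllDegrees U ∧
    -- another prime
    ∀ (Ω' : Type) [Field Ω'] [CharZero Ω'] (V' : Type) (T' : Homology Ω' V') (_ : IsHomology T')
      (_ : HasWeights T') (U' : Family T') (_ : IsUniverse U') (_ : HasCorrespondences U' q),
      IsComparison U U' → Independence U U' :=
  ⟨ray_theorem hT hW hU, from_rays hT hU hW hC, all_degrees hT hU hW hC,
    fun _ _ _ _ _ hT' hW' _ hU' hC' h => independence hT hU hW hT' hW' hU' hC' h⟩

end Pool.Agent.Results.MP_677d84_ag.VanishingOnRays
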